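import Pool.Agent.Helper93.ZF.Filterbase

set_option autoImplicit false

/-!
# A model of ZF with a filterbase infinite, strongly filterbase finite set

Full affirmative answer to Q1 of MP_915581_lc.

`ZFModel E` says that the structure `(M, E)` satisfies all the axioms of ZF (with the separation
and replacement schemes for all first order formulas `Fml` with parameters, `Sat` being Tarski
satisfaction); see `Pool.Agent.Helper93.ZF.Formula`.  The set-theoretic notions inside `(M, E)`
(ordered pairs, bijections, `ω`, finiteness, functions, filterbases) are defined in
`Pool.Agent.Helper93.ZF.SetDefs` and `Pool.Agent.Helper93.ZF.FilterDefs`.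
-/

namespace Pool.Agent.Results.MP_915581_lc.FilterbaseModel

open Pool.Agent.Helper93.ZF

/-- There is a (countable, well-founded) model `(M, E)` of ZF with a set `A` which, in the model,
is filterbase infinite but not strongly filterbase infinite. -/
theorem result : ∃ (M : Type) (E : M → M → Prop), ZFModel E ∧ WellFounded E ∧ Countable M ∧
    ∃ A : M, FilterbaseInfinite E A ∧ ¬ StronglyFilterbaseInfinite E A :=
  filterbase_model

end Pool.Agent.Results.MP_915581_lc.FilterbaseModel
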